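import Mathlib
import Pool.Agent.R322.Turan.Transfer

/-!
# MP_ff1a2a_nt: property (T) holds for no Dirichlet character, so Q1 is true

For every modulus `k ≥ 1` there are `κ > 0` and `N₀` such that for every Dirichlet character `χ`
modulo `k` and every `N ≥ N₀` the partial sum `S_N(s, χ)` has zeros with
`σ ≥ 1 + κ / (log N)²` (and arbitrarily large imaginary part). In particular no `χ` has property (T).
-/

set_option autoImplicit false

namespace Pool.Agent.Results.MP_ff1a2a_nt.PropertyTNeverHolds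

/-- The partial sum `S_N(s, χ) = ∑_{n ≤ N} χ(n) n^{-s}`. -/
noncomputable def partialSum {k : ℕ} (χ : DirichletCharacter ℂ k) (N : ℕ) (s : ℂ) : ℂ :=
  ∑ n ∈ Finset.Icc 1 N, χ n * (n : ℂ) ^ (-s)

/-- Property (T): `S_N(s, χ) ≠ 0` for every `N ≥ 1` and every `s` with `Re s > 1`. -/
def PropertyT {k : ℕ} (χ : DirichletCharacter ℂ k) : Prop :=
  ∀ N : ℕ, 1 ≤ N → ∀ s : ℂ, 1 < s.re → partialSum χ N s ≠ 0

/-- Question Q1 has the answer yes: every `χ` with property (T) satisfies `L(s, χ) ≠ 0` for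
`Re s > 1/2`. The reason is that no `χ` has property (T): for `N` large in terms of `k` every
`S_N(s, χ)` with `χ` modulo `k` has zeros with `Re s ≥ 1 + κ / (log N)²`. -/
theorem result :
    (∀ (k : ℕ) [NeZero k] (χ : DirichletCharacter ℂ k), PropertyT χ →
      ∀ s : ℂ, 1 / 2 < s.re → DirichletCharacter.LFunction χ s ≠ 0) ∧
    (∀ (k : ℕ) [NeZero k], ∃ κ : ℝ, 0 < κ ∧ ∃ N₀ : ℕ, 2 ≤ N₀ ∧ ∀ χ : DirichletCharacter ℂ k,
      ∀ N : ℕ, N₀ ≤ N → ∀ T : ℝ, ∃ s : ℂ, 1 + κ / (Real.log N) ^ 2 ≤ s.re ∧ T < s.im ∧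
        partialSum χ N s = 0) := by
  have main : ∀ (k : ℕ) [NeZero k], ∃ κ : ℝ, 0 < κ ∧ ∃ N₀ : ℕ, 2 ≤ N₀ ∧
      ∀ χ : DirichletCharacter ℂ k, ∀ N : ℕ, N₀ ≤ N → ∀ T : ℝ, ∃ s : ℂ,
      1 + κ / (Real.log N) ^ 2 ≤ s.re ∧ T < s.im ∧ partialSum χ N s = 0 := by
    intro k _
    obtain ⟨κ, hκ, N₀, hN₀, H⟩ := Pool.Agent.R322.Turan.main k (Nat.pos_of_ne_zero (NeZero.ne k))
    exact ⟨κ, hκ, N₀, hN₀, fun χ N hN T => H χ N hN T⟩
  refine ⟨?_, main⟩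
  intro k _ χ hT
  exfalso
  obtain ⟨κ, hκ, N₀, hN₀, H⟩ := main k
  obtain ⟨s, hs, -, h0⟩ := H χ N₀ le_rfl 0
  have hN' : (1:ℝ) < N₀ := by exact_mod_cast (by omega : 1 < N₀)
  have hL : 0 < Real.log N₀ := Real.log_pos hN'
  have : 0 < κ / (Real.log N₀) ^ 2 := by positivity
  exact hT N₀ (by omega) s (by linarith) h0

end Pool.Agent.Results.MP_ff1a2a_nt.PropertyTNeverHolds
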